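import Pool.Agent.U892.PD.Stm

/-!
# Project PD, package SYS1 (helper571): three leaves give the first functions of the closed system
-/

set_option autoImplicit false

open Filter Topology Set
open scoped ContDiff

namespace Pool.Agent.U571.PD

open Pool.Agent.U892.PD

/-- directional derivative -/
noncomputable def D (v : ℝ × ℝ) (f : ℝ × ℝ → ℝ) (w : ℝ × ℝ) : ℝ := fderiv ℝ f w v

lemma D_add {f g : ℝ × ℝ → ℝ} {v w : ℝ × ℝ} (hf : DifferentiableAt ℝ f w)
    (hg : DifferentiableAt ℝ g w) : D v (fun w => f w + g w) w = D v f w + D v g w := by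
  unfold D
  rw [fderiv_fun_add hf hg]
  rfl

lemma D_mul {f g : ℝ × ℝ → ℝ} {v w : ℝ × ℝ} (hf : DifferentiableAt ℝ f w)
    (hg : DifferentiableAt ℝ g w) :
    D v (fun w => f w * g w) w = D v f w * g w + f w * D v g w := by
  unfold D
  rw [fderiv_fun_mul hf hg]
  simp only [_root_.add_apply, _root_.smul_apply, smul_eq_mul]
  ring

lemma D_congr {f g : ℝ × ℝ → ℝ} {v w : ℝ × ℝ} (h : ∀ᶠ u in 𝓝 w, f u = g u) :
    D v f w = D v g w := by
  unfold D
  rw [Filter.EventuallyEq.fderiv_eq h]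

lemma D_smooth {f : ℝ × ℝ → ℝ} {z v : ℝ × ℝ} {n m : WithTop ℕ∞} (hf : ContDiffAt ℝ n f z)
    (h : m + 1 ≤ n) : ContDiffAt ℝ m (D v f) z :=
  (hf.fderiv_right h).clm_apply contDiffAt_const

lemma D_symm {f : ℝ × ℝ → ℝ} {w : ℝ × ℝ} (hf : ContDiffAt ℝ 2 f w) (u v : ℝ × ℝ) :
    D u (D v f) w = D v (D u f) w := by
  have h1 : DifferentiableAt ℝ (fderiv ℝ f) w :=
    (hf.fderiv_right (m := 1) (by norm_num)).differentiableAt (by norm_num)
  have h2 : IsSymmSndFDerivAt ℝ f w := hf.isSymmSndFDerivAt (by simp)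
  have h3 : ∀ a b : ℝ × ℝ, D a (D b f) w = fderiv ℝ (fderiv ℝ f) w a b := by
    intro a b
    show fderiv ℝ (fun w => fderiv ℝ f w b) w a = _
    rw [fderiv_clm_apply h1 (differentiableAt_const b)]
    simp
  rw [h3, h3]
  exact h2 u v

theorem t_SYS1 : S_SYS1 := by
  intro x y φ ψ z H
  have hda : ∀ f, da f = D (1, 0) f := fun _ => rfl
  have hdb : ∀ f, db f = D (0, 1) f := fun _ => rfl
  obtain ⟨γ, hγ⟩ : ∃ γ : ℝ × ℝ → ℝ, γ = fun w =>
    -(db φ w - ψ w * da φ w) / (1 - φ w * ψ w) := ⟨_, rfl⟩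
  obtain ⟨δ, hδ⟩ : ∃ δ : ℝ × ℝ → ℝ, δ = fun w =>
    -(db ψ w - ψ w * da ψ w) / (1 - φ w * ψ w) := ⟨_, rfl⟩
  obtain ⟨θ, hθ⟩ : ∃ θ : ℝ × ℝ → ℝ, θ = fun w => da φ w + φ w * γ w := ⟨_, rfl⟩
  obtain ⟨η, hη⟩ : ∃ η : ℝ × ℝ → ℝ, η = fun w => da ψ w + φ w * δ w := ⟨_, rfl⟩
  have hden : 1 - φ z * ψ z ≠ 0 := by
    have := H.nd
    linarith
  have sφ' : ContDiffAt ℝ 19 φ z := H.sφ.of_le (by norm_num)
  have sψ' : ContDiffAt ℝ 19 ψ z := H.sψ.of_le (by norm_num)
  have sφa : ContDiffAt ℝ 19 (da φ) z := D_smooth H.sφ (by norm_num)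
  have sφb : ContDiffAt ℝ 19 (db φ) z := D_smooth H.sφ (by norm_num)
  have sψa : ContDiffAt ℝ 19 (da ψ) z := D_smooth H.sψ (by norm_num)
  have sψb : ContDiffAt ℝ 19 (db ψ) z := D_smooth H.sψ (by norm_num)
  have sγ : ContDiffAt ℝ 19 γ z := by
    rw [hγ]
    exact (sφb.sub (sψ'.mul sφa)).neg.div (contDiffAt_const.sub (sφ'.mul sψ')) hden
  have sδ : ContDiffAt ℝ 19 δ z := by
    rw [hδ]
    exact (sψb.sub (sψ'.mul sψa)).neg.div (contDiffAt_const.sub (sφ'.mul sψ')) hden
  have sθ : ContDiffAt ℝ 19 θ z := by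
    rw [hθ]
    exact sφa.add (sφ'.mul sγ)
  have sη : ContDiffAt ℝ 19 η z := by
    rw [hη]
    exact sψa.add (sφ'.mul sδ)
  -- what holds near `z`
  have ev1 : ∀ᶠ w in 𝓝 z, ∀ j, ContDiffAt ℝ 20 (x j) w :=
    eventually_all.2 fun j => (H.sx j).eventually (by simp)
  have ev2 : ∀ᶠ w in 𝓝 z, ∀ j, ContDiffAt ℝ 20 (y j) w :=
    eventually_all.2 fun j => (H.sy j).eventually (by simp)
  have ev3 : ∀ᶠ w in 𝓝 z, ContDiffAt ℝ 20 φ w := H.sφ.eventually (by simp)
  have ev4 : ∀ᶠ w in 𝓝 z, ContDiffAt ℝ 20 ψ w := H.sψ.eventually (by simp)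
  have ev5 : ∀ᶠ w in 𝓝 z, ContDiffAt ℝ 19 γ w := sγ.eventually (by simp)
  have ev6 : ∀ᶠ w in 𝓝 z, ContDiffAt ℝ 19 δ w := sδ.eventually (by simp)
  have ev7 : ∀ᶠ w in 𝓝 z, ContDiffAt ℝ 19 θ w := sθ.eventually (by simp)
  have ev8 : ∀ᶠ w in 𝓝 z, ContDiffAt ℝ 19 η w := sη.eventually (by simp)
  have ev9 : ∀ᶠ w in 𝓝 z, ∀ j, db (x j) w = x j w * da (x j) w := eventually_all.2 H.bx
  have ev10 : ∀ᶠ w in 𝓝 z, ∀ j, db (y j) w = y j w * da (y j) w := eventually_all.2 H.bY
  have ev11 : ∀ᶠ w in 𝓝 z, ∀ j, ∀ᶠ u in 𝓝 w, x j u + y j u = φ u * (x j u * y j u) + ψ u :=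
    eventually_all.2 fun j => (H.rel j).eventually_nhds
  have ev12 : ∀ᶠ w in 𝓝 z, 1 - φ w * ψ w ≠ 0 := by
    have h1 : ContinuousAt (fun w => 1 - φ w * ψ w) z :=
      continuousAt_const.sub (sφ'.continuousAt.mul sψ'.continuousAt)
    exact h1.eventually_ne hden
  have ev13 : ∀ᶠ w in 𝓝 z, ∀ i j, i ≠ j → x i w * y i w ≠ x j w * y j w := by
    rw [eventually_all]
    intro i
    rw [eventually_all]
    intro j
    by_cases hij : i = j
    · exact Eventually.of_forall fun w h => absurd hij h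
    · have h1 : ContinuousAt (fun w => x i w * y i w - x j w * y j w) z :=
        ((H.sx i).continuousAt.mul (H.sy i).continuousAt).sub
          ((H.sx j).continuousAt.mul (H.sy j).continuousAt)
      have h2 := h1.eventually_ne (sub_ne_zero.2 (H.ne i j hij))
      filter_upwards [h2] with w hw _
      exact sub_ne_zero.1 hw
  -- first derivatives
  have st1 : ∀ᶠ w in 𝓝 z, ∀ j, da (fun w => x j w * y j w) w = γ w * (x j w * y j w) + δ w ∧
      da (fun w => x j w + y j w) w = θ w * (x j w * y j w) + η w ∧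
      db (fun w => x j w * y j w) w =
        θ w * ((x j w * y j w) * (x j w * y j w)) + η w * (x j w * y j w) := by
    filter_upwards [ev1, ev2, ev3, ev4, ev9, ev10, ev11, ev12] with w h1 h2 h3 h4 h9 h10 h11 h12 j
    have dx : DifferentiableAt ℝ (x j) w := (h1 j).differentiableAt (by norm_num)
    have dy : DifferentiableAt ℝ (y j) w := (h2 j).differentiableAt (by norm_num)
    have dφ : DifferentiableAt ℝ φ w := h3.differentiableAt (by norm_num)
    have dψ : DifferentiableAt ℝ ψ w := h4.differentiableAt (by norm_num)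
    have e0 := (h11 j).self_of_nhds
    have key : ∀ v : ℝ × ℝ, D v (x j) w + D v (y j) w =
        D v φ w * (x j w * y j w) + φ w * (D v (x j) w * y j w + x j w * D v (y j) w) +
          D v ψ w := by
      intro v
      rw [← D_add dx dy, D_congr (h11 j), D_add (dφ.fun_mul (dx.fun_mul dy)) dψ,
        D_mul dφ (dx.fun_mul dy), D_mul dx dy]
    have ka := key (1, 0)
    have kb := key (0, 1)
    have hx := h9 j
    have hy := h10 j
    rw [hda, hdb] at hx hy
    rw [hx, hy] at kb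
    simp only [hda, hdb] at hγ hδ hθ hη ⊢
    rw [D_mul dx dy, D_mul dx dy, D_add dx dy, hx, hy]
    have eγ : (1 - φ w * ψ w) * γ w = -(D (0, 1) φ w - ψ w * D (1, 0) φ w) := by
      rw [hγ]
      field_simp
    have eδ : (1 - φ w * ψ w) * δ w = -(D (0, 1) ψ w - ψ w * D (1, 0) ψ w) := by
      rw [hδ]
      field_simp
    have eθ : θ w = D (1, 0) φ w + φ w * γ w := by rw [hθ]
    have eη : η w = D (1, 0) ψ w + φ w * δ w := by rw [hη]
    have r1 : D (1, 0) (x j) w * y j w + x j w * D (1, 0) (y j) w =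
        γ w * (x j w * y j w) + δ w := by
      apply mul_left_cancel₀ h12
      generalize D (1, 0) (x j) w = X at *
      generalize D (1, 0) (y j) w = Y at *
      generalize D (1, 0) φ w = Fa at *
      generalize D (0, 1) φ w = Fb at *
      generalize D (1, 0) ψ w = Ga at *
      generalize D (0, 1) ψ w = Gb at *
      linear_combination (-(x j w * y j w)) * eγ - eδ + (X + Y) * e0 + ψ w * ka - kb
    have r2 : D (1, 0) (x j) w + D (1, 0) (y j) w = θ w * (x j w * y j w) + η w := by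
      rw [eθ, eη]
      linear_combination ka + φ w * r1
    refine ⟨r1, r2, ?_⟩
    linear_combination (x j w * y j w) * r2
  -- the functions
  have main : ∀ᶠ w in 𝓝 z, da φ w = θ w - φ w * γ w ∧ da ψ w = η w - φ w * δ w ∧
      db φ w = ψ w * θ w - γ w ∧ db ψ w = ψ w * η w - δ w ∧ da θ w = -(γ w * θ w) ∧
      db γ w = 2 * θ w * δ w + da η w ∧ db δ w = η w * δ w := by
    filter_upwards [ev1, ev2, ev5, ev6, ev7, ev8, ev12, ev13, st1, st1.eventually_nhds] with
      w h1 h2 h5 h6 h7 h8 h12 h13 s1 s2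
    have eγ : (1 - φ w * ψ w) * γ w = -(db φ w - ψ w * da φ w) := by
      rw [hγ]
      field_simp
    have eδ : (1 - φ w * ψ w) * δ w = -(db ψ w - ψ w * da ψ w) := by
      rw [hδ]
      field_simp
    have eθ : θ w = da φ w + φ w * γ w := by rw [hθ]
    have eη : η w = da ψ w + φ w * δ w := by rw [hη]
    have dγ : DifferentiableAt ℝ γ w := h5.differentiableAt (by norm_num)
    have dδ : DifferentiableAt ℝ δ w := h6.differentiableAt (by norm_num)
    have dθ : DifferentiableAt ℝ θ w := h7.differentiableAt (by norm_num)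
    have dη : DifferentiableAt ℝ η w := h8.differentiableAt (by norm_num)
    have key : ∀ j, (-(da θ w + γ w * θ w)) * (x j w * y j w) ^ 2 +
        (db γ w - 2 * θ w * δ w - da η w) * (x j w * y j w) + (db δ w - η w * δ w) = 0 := by
      intro j
      have hs : ContDiffAt ℝ 20 (fun w => x j w * y j w) w := (h1 j).mul (h2 j)
      have dP : DifferentiableAt ℝ (fun w => x j w * y j w) w := hs.differentiableAt (by norm_num)
      have hsym := D_symm (hs.of_le (by norm_num)) (0, 1) (1, 0)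
      have t1 : D (0, 1) (D (1, 0) fun w => x j w * y j w) w =
          D (0, 1) (fun w => γ w * (x j w * y j w) + δ w) w :=
        D_congr (s2.mono fun u hu => (hu j).1)
      have t2 : D (1, 0) (D (0, 1) fun w => x j w * y j w) w =
          D (1, 0) (fun w => θ w * ((x j w * y j w) * (x j w * y j w)) +
            η w * (x j w * y j w)) w :=
        D_congr (s2.mono fun u hu => (hu j).2.2)
      rw [t1, t2, D_add (dγ.fun_mul dP) dδ, D_mul dγ dP,
        D_add (dθ.fun_mul (dP.fun_mul dP)) (dη.fun_mul dP), D_mul dθ (dP.fun_mul dP), D_mul dP dP,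
        D_mul dη dP] at hsym
      obtain ⟨p1, -, p2⟩ := s1 j
      rw [hda] at p1
      rw [hdb] at p2
      rw [p1, p2] at hsym
      rw [hda, hda, hdb, hdb]
      linear_combination hsym
    have k0 := key 0
    have k1 := key 1
    have k2 := key 2
    have n01 := sub_ne_zero.2 (h13 0 1 (by decide))
    have n02 := sub_ne_zero.2 (h13 0 2 (by decide))
    have n12 := sub_ne_zero.2 (h13 1 2 (by decide))
    generalize x 0 w * y 0 w = p0 at *
    generalize x 1 w * y 1 w = p1 at *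
    generalize x 2 w * y 2 w = p2 at *
    have m1 : (-(da θ w + γ w * θ w)) * (p0 + p1) + (db γ w - 2 * θ w * δ w - da η w) = 0 := by
      apply mul_left_cancel₀ n01
      linear_combination k0 - k1
    have m2 : (-(da θ w + γ w * θ w)) * (p0 + p2) + (db γ w - 2 * θ w * δ w - da η w) = 0 := by
      apply mul_left_cancel₀ n02
      linear_combination k0 - k2
    have m3 : -(da θ w + γ w * θ w) = 0 := by
      apply mul_left_cancel₀ n12
      linear_combination m1 - m2
    have m4 : db γ w - 2 * θ w * δ w - da η w = 0 := by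
      linear_combination m1 - (p0 + p1) * m3
    have m5 : db δ w - η w * δ w = 0 := by
      linear_combination k0 - p0 ^ 2 * m3 - p0 * m4
    refine ⟨by linear_combination -eθ, by linear_combination -eη, ?_, ?_,
      by linear_combination -m3, by linear_combination m4, by linear_combination m5⟩
    · rw [eθ]
      linear_combination eγ
    · rw [eη]
      linear_combination eδ
  refine ⟨θ, η, γ, δ, sθ.of_le (by norm_num), sη.of_le (by norm_num), sγ.of_le (by norm_num),
    sδ.of_le (by norm_num), main, ?_⟩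
  intro j
  have hs : ContDiffAt ℝ 20 (fun w => x j w * y j w) z := (H.sx j).mul (H.sy j)
  have dP : DifferentiableAt ℝ (fun w => x j w * y j w) z := hs.differentiableAt (by norm_num)
  have dθ : DifferentiableAt ℝ θ z := sθ.differentiableAt (by norm_num)
  have dη : DifferentiableAt ℝ η z := sη.differentiableAt (by norm_num)
  have t1 : D (1, 0) (da fun w => x j w + y j w) z =
      D (1, 0) (fun w => θ w * (x j w * y j w) + η w) z :=
    D_congr (st1.mono fun u hu => (hu j).2.1)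
  have p1 := (st1.self_of_nhds j).1
  have p2 := main.self_of_nhds.2.2.2.2.1
  show D (1, 0) (da fun w => x j w + y j w) z = _
  rw [t1, D_add (dθ.fun_mul dP) dη, D_mul dθ dP]
  rw [hda] at p1 p2
  rw [p1, p2, hda]
  ring

end Pool.Agent.U571.PD
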